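import Pool.Agent.Q237.LR.Stm5
import Pool.Agent.Q208.LR.STA

/-! Project LR (helper237), job STG: stationarity of `Im G` in infinite volume. -/

set_option autoImplicit false

namespace Pool.Agent.Q190.LR5

open MeasureTheory ProbabilityTheory Set Filter Topology H10PL Pool.Agent.Q237.LR2
  Pool.Agent.Q237.LR3 Pool.Agent.Q237.LR4 Pool.Agent.Q237.LR5 Pool.Agent.Q208.LR

theorem stg (hSHG : S_SHG) (hMSR : S_MSR) : S_STG := by
  intro d T0 κ ρ0 b μ K η x φ hμ hA hT hs hη hφ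
  set e1 : (Fin d → ℤ) ≃ (Fin d → ℤ) := (Equiv.addRight x).symm with he1
  set e2 : Sym2 (Fin d → ℤ) ≃ Sym2 (Fin d → ℤ) := (edg x).symm with he2
  have hm1 : ∀ V, MeasurableEquiv.piCongrLeft (fun _ : (Fin d → ℤ) => ℝ) e1 V = shV x V := fun V => by
    funext i
    exact perm_apply e1 V i
  have hm2 : ∀ s, MeasurableEquiv.piCongrLeft (fun _ : Sym2 (Fin d → ℤ) => Bool) e2 s = shS x s :=
    fun s => by
      funext i
      exact perm_apply e2 s i
  have hp1 : MeasurePreserving (shV x) (PVg d μ) (PVg d μ) := by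
    have h := perm_mp μ e1
    rwa [show (⇑(MeasurableEquiv.piCongrLeft (fun _ : (Fin d → ℤ) => ℝ) e1)) = shV x from
      funext hm1] at h
  have hp2 : MeasurePreserving (shS x) (Ps d) (Ps d) := by
    have h := perm_mp coin e2
    rwa [show (⇑(MeasurableEquiv.piCongrLeft (fun _ : Sym2 (Fin d → ℤ) => Bool) e2)) = shS x from
      funext hm2] at h
  have hΨ : MeasurePreserving (Prod.map (id : ℝ → ℝ) (Prod.map (shV x) (shS x)))
      (mE d μ K) (mE d μ K) :=
    (MeasurePreserving.id (volume.restrict (Icc (-K) K))).prod (hp1.prod hp2)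
  have hgs : Measurable (gs T0 κ η (0 : Fin d → ℤ)) := by
    unfold gs
    exact Measurable.liminf fun n => (hMSR d T0 κ n η (bx d n) 0 0).1.ennreal_ofReal
  rw [← hΨ.lintegral_comp (f := fun p => φ (gs T0 κ η 0 p)) (hφ.comp hgs)]
  have h2 : ∀ᵐ s ∂(Ps d), CutOK T0 κ (shS x s) := hp2.quasiMeasurePreserving.ae hs
  have h3 : ∀ᵐ p ∂(mE d μ K), CutOK T0 κ p.2.2 ∧ CutOK T0 κ (shS x p.2.2) :=
    ((Measure.quasiMeasurePreserving_snd (μ := PVg d μ) (ν := Ps d)).comp
      (Measure.quasiMeasurePreserving_snd (μ := volume.restrict (Icc (-K) K))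
        (ν := (PVg d μ).prod (Ps d)))).ae (hs.and h2)
  apply lintegral_congr_ae
  filter_upwards [h3] with p hp
  obtain ⟨E, V, s⟩ := p
  exact congrArg φ (hSHG d T0 κ ρ0 b hA hT s x hp.1 hp.2 V E η hη)

end Pool.Agent.Q190.LR5
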